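import Pool.Agent.H78R3.TSV.Time
import Pool.Agent.H612.ClosedHard

/-!
# Affine polynomial projection is `∃ℝ`-hard

Let `q₁ = … = q_m = 0` be a system of homogeneous quadratic equations on `ℝⁿ`; whether such a
system has a nonzero real solution is `∃ℝ`-hard. Put

  `f = x₁² x₂²`,   `g(z, w) = ∑_j q_j(z)² + w² |z|²`.

If `z` is a solution of norm one then `f(x) = g(x₁ z, x₂)`. Conversely suppose that
`f(x) = g(A x + b)` for all `x`. As `f` vanishes on the first two axes and `g` is a sum of squares,
all `q_j` vanish at the images of the points of these axes, hence (looking at the leading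
coefficients) at the `z`-parts of the first two columns of `A`. If both are zero then `f` has
degree at most two in `(x₁, x₂)` on the plane of the first two axes, which is absurd.

So already the case `f = x₁² x₂²`, `g` a homogeneous quartic, is `∃ℝ`-hard, and there the affine
and the linear version of the problem coincide.
-/

set_option autoImplicit false

namespace Pool.Agent.Results.MP_ca1301_lc.AffineProjectionHard

open Pool.Agent.NPC Pool.Agent.NPC.ER Pool.Agent.NPC.H612

/-- The decision problem **affine polynomial projection**. The input consists of the number `n`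
of variables and two integer polynomials `f`, `g` in `n` variables, each given by the list of its
nonzero coefficients with their exponent vectors. The question is whether there are a real
`n × n` matrix `A` and a vector `b ∈ ℝⁿ` such that `f(x) = g(A x + b)` for all `x ∈ ℝⁿ`. -/
def AffineProjection (a : ℕ × PolyData × PolyData) : Prop :=
  (a.2.1.Valid a.1 ∧ a.2.2.Valid a.1) ∧
    ∃ (A : Matrix (Fin a.1) (Fin a.1) ℝ) (b : Fin a.1 → ℝ),
      ∀ x : Fin a.1 → ℝ, pval x a.2.1 = pval (A.mulVec x + b) a.2.2

/-- The decision problem **linear polynomial projection**: the same with `b = 0`. -/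
def LinearProjection (a : ℕ × PolyData × PolyData) : Prop :=
  (a.2.1.Valid a.1 ∧ a.2.2.Valid a.1) ∧
    ∃ A : Matrix (Fin a.1) (Fin a.1) ℝ,
      ∀ x : Fin a.1 → ℝ, pval x a.2.1 = pval (A.mulVec x) a.2.2

/-- Both polynomials are correctly written homogeneous polynomials of degree four. -/
def IsQuartic (a : ℕ × PolyData × PolyData) : Prop :=
  (a.2.1.Valid a.1 ∧ a.2.2.Valid a.1) ∧ (∀ t ∈ a.2.1, t.2.sum = 4) ∧ ∀ t ∈ a.2.2, t.2.sum = 4

/-! ### Raw polynomials -/

open Pool.Agent.H78R3.TSV (QT QC gev tev bev hsys hn HomSat GOk hsys_ok)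

/-- The raw terms of a term. -/
def traw (t : QT) : List (Bool × List ℕ) :=
  ((List.range 8).filter (fun r => decide (r < t.1.natAbs))).map
    (fun _ => (decide (t.1 < 0), [t.2.1, t.2.2]))

/-- The raw terms of a quadratic form. -/
def graw (g : QC) : List (Bool × List ℕ) := traw g.1 ++ (traw g.2.1 ++ traw g.2.2)

/-- The raw terms of a square. -/
def sqraw (R : List (Bool × List ℕ)) : List (Bool × List ℕ) :=
  R.flatMap fun p => R.map fun q => ((p.1 ^^ q.1), p.2 ++ q.2)

/-- The raw terms of `g`. -/
def qraw (n : ℕ) (G : List QC) : List (Bool × List ℕ) :=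
  G.flatMap (fun g => sqraw (graw g)) ++ (List.range n).map (fun i => (false, [n, n, i, i]))

theorem rawEval_append (y : ℕ → ℝ) (R R' : List (Bool × List ℕ)) :
    rawEval y (R ++ R') = rawEval y R + rawEval y R' := by
  simp [rawEval]

theorem rawEval_flatMap {α : Type} (y : ℕ → ℝ) (l : List α) (F : α → List (Bool × List ℕ)) :
    rawEval y (l.flatMap F) = (l.map fun a => rawEval y (F a)).sum := by
  induction l with
  | nil => simp [rawEval]
  | cons a l ih => rw [List.flatMap_cons, rawEval_append, ih]; simp

theorem rawEval_traw (y : ℕ → ℝ) (t : QT) (ht : t.1.natAbs ≤ 8) :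
    rawEval y (traw t) = (t.1 : ℝ) * (y t.2.1 * y t.2.2) := by
  have h3 : ∀ m w : ℕ, w ≤ m →
      ((List.range m).filter (fun r => decide (r < w))).length = w := by
    intro m
    induction m with
    | zero => intro w hw; simp; omega
    | succ m ih =>
      intro w hw
      rw [List.range_succ, List.filter_append, List.length_append]
      rcases Nat.lt_or_ge m w with h | h
      · have hwm : w = m + 1 := by omega
        have h1 : ((List.range m).filter (fun r => decide (r < w))).length = m := by
          rw [List.filter_eq_self.2 (by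
            intro r hr
            have := List.mem_range.1 hr
            simp; omega), List.length_range]
        rw [h1]
        simp [hwm]
      · rw [ih w h]
        simp [Nat.not_lt.2 h]
  have h1 : ∀ (l : List ℕ) (b : Bool) (v : List ℕ), rawEval y (l.map (fun _ => (b, v))) =
      (l.length : ℝ) * ((sgn b : ℝ) * (v.map y).prod) := by
    intro l b v
    induction l with
    | nil => simp [rawEval]
    | cons a l ih =>
      have : rawEval y ((a :: l).map (fun _ => (b, v))) =
          ((sgn b : ℝ) * (v.map y).prod) + rawEval y (l.map (fun _ => (b, v))) := by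
        simp [rawEval]
      rw [this, ih]
      push_cast [List.length_cons]
      ring
  unfold traw
  rw [h1, h3 8 _ ht]
  have h2 : ((t.1.natAbs : ℕ) : ℝ) * (sgn (decide (t.1 < 0)) : ℝ) = (t.1 : ℝ) := by
    rw [Nat.cast_natAbs]
    by_cases h : t.1 < 0
    · rw [abs_of_neg h]
      simp [sgn, h]
    · rw [abs_of_nonneg (not_lt.1 h)]
      simp [sgn, h]
  rw [← h2]
  simp
  ring

theorem gev_eq {n : ℕ} (y : ℕ → ℝ) (g : QC) (hg : GOk n g) :
    gev y y g = 2 * rawEval y (graw g) := by
  obtain ⟨h1, h2, h3⟩ := hg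
  unfold graw
  rw [rawEval_append, rawEval_append, rawEval_traw y _ h1.1, rawEval_traw y _ h2.1,
    rawEval_traw y _ h3.1]
  unfold gev tev bev
  ring

theorem rawEval_sqraw (y : ℕ → ℝ) (R : List (Bool × List ℕ)) :
    rawEval y (sqraw R) = rawEval y R ^ 2 := by
  have h : ∀ R' : List (Bool × List ℕ), rawEval y (R'.flatMap fun p => R.map fun q =>
      ((p.1 ^^ q.1), p.2 ++ q.2)) = rawEval y R' * rawEval y R := by
    intro R'
    induction R' with
    | nil => simp [rawEval]
    | cons p R' ih =>
      rw [List.flatMap_cons, rawEval_append, ih]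
      have h1 : rawEval y (R.map fun q => ((p.1 ^^ q.1), p.2 ++ q.2)) =
          ((sgn p.1 : ℝ) * (p.2.map y).prod) * rawEval y R := by
        unfold rawEval
        rw [List.map_map, ← List.sum_map_mul_left]
        congr 1
        apply List.map_congr_left
        intro q _
        have hs : (sgn (p.1 ^^ q.1) : ℤ) = sgn p.1 * sgn q.1 := by
          cases p.1 <;> cases q.1 <;> simp [sgn]
        simp only [Function.comp_def, List.map_append, List.prod_append, hs]
        push_cast
        ring
      rw [h1]
      have h2 : rawEval y (p :: R') = (sgn p.1 : ℝ) * (p.2.map y).prod + rawEval y R' := by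
        simp [rawEval]
      rw [h2]
      ring
  unfold sqraw
  rw [h, sq]

theorem rawEval_qraw (n : ℕ) (G : List QC) (y : ℕ → ℝ) :
    rawEval y (qraw n G) = (G.map fun g => rawEval y (graw g) ^ 2).sum +
      y n ^ 2 * ∑ i ∈ Finset.range n, y i ^ 2 := by
  unfold qraw
  rw [rawEval_append, rawEval_flatMap]
  congr 1
  · congr 1
    exact List.map_congr_left fun g _ => rawEval_sqraw y _
  · have h : ∀ m : ℕ, rawEval y ((List.range m).map (fun i => (false, [n, n, i, i]))) =
        y n ^ 2 * ∑ i ∈ Finset.range m, y i ^ 2 := by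
      intro m
      induction m with
      | zero => simp [rawEval]
      | succ m ih =>
        rw [List.range_succ, List.map_append, rawEval_append, ih, Finset.sum_range_succ]
        simp [rawEval, sgn]
        ring
    exact h n

theorem traw_mem {t : QT} {n : ℕ} (h1 : t.2.1 < n) (h2 : t.2.2 < n) :
    ∀ p ∈ traw t, (∀ i ∈ p.2, i < n) ∧ p.2.length = 2 := by
  intro p hp
  unfold traw at hp
  rw [List.mem_map] at hp
  obtain ⟨_, _, rfl⟩ := hp
  simp [h1, h2]

theorem graw_mem {g : QC} {n : ℕ} (hg : GOk n g) :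
    ∀ p ∈ graw g, (∀ i ∈ p.2, i < n) ∧ p.2.length = 2 := by
  intro p hp
  unfold graw at hp
  rw [List.mem_append, List.mem_append] at hp
  obtain ⟨h1, h2, h3⟩ := hg
  rcases hp with h | h | h
  · exact traw_mem h1.2.1 h1.2.2 p h
  · exact traw_mem h2.2.1 h2.2.2 p h
  · exact traw_mem h3.2.1 h3.2.2 p h

theorem qraw_mem {n : ℕ} {G : List QC} (hG : ∀ g ∈ G, GOk n g) :
    ∀ p ∈ qraw n G, (∀ i ∈ p.2, i < n + 1) ∧ p.2.length = 4 := by
  intro p hp
  unfold qraw at hp
  rw [List.mem_append, List.mem_flatMap, List.mem_map] at hp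
  rcases hp with ⟨g, hg, hp⟩ | ⟨i, hi, rfl⟩
  · unfold sqraw at hp
    rw [List.mem_flatMap] at hp
    obtain ⟨a, ha, hp⟩ := hp
    rw [List.mem_map] at hp
    obtain ⟨b, hb, rfl⟩ := hp
    have h1 := graw_mem (hG g hg) a ha
    have h2 := graw_mem (hG g hg) b hb
    refine ⟨fun i hi => ?_, by simp [h1.2, h2.2]⟩
    simp only [List.mem_append] at hi
    rcases hi with hi | hi
    · have := h1.1 i hi; omega
    · have := h2.1 i hi; omega
  · have := List.mem_range.1 hi
    refine ⟨fun j hj => ?_, rfl⟩
    simp only [List.mem_cons, List.not_mem_nil, or_false] at hj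
    omega

/-! ### The instance -/

/-- The instance of a homogeneous quadratic system. -/
def instQ (n : ℕ) (G : List QC) : ℕ × PolyData × PolyData :=
  (n + 1, collect (n + 1) [(false, [0, 0, 1, 1])], collect (n + 1) (qraw n G))

theorem instQ_quartic {n : ℕ} {G : List QC} (hn : 1 ≤ n) (hG : ∀ g ∈ G, GOk n g) :
    IsQuartic (instQ n G) := by
  refine ⟨⟨collect_valid _ _, collect_valid _ _⟩, ?_, ?_⟩
  · refine collect_deg (n := n + 1) (d := 4) [(false, [0, 0, 1, 1])] ?_ ?_
    · intro p hp i hi
      simp only [List.mem_cons, List.not_mem_nil, or_false] at hp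
      subst hp
      simp only [List.mem_cons, List.not_mem_nil, or_false] at hi
      omega
    · intro p hp
      simp only [List.mem_cons, List.not_mem_nil, or_false] at hp
      subst hp
      rfl
  · exact collect_deg (n := n + 1) (d := 4) (qraw n G) (fun p hp => (qraw_mem hG p hp).1)
      (fun p hp => (qraw_mem hG p hp).2)

theorem pval_f {n : ℕ} (hn : 1 ≤ n) (x : Fin (n + 1) → ℝ) :
    pval x (collect (n + 1) [(false, [0, 0, 1, 1])]) = xt x 0 ^ 2 * xt x 1 ^ 2 := by
  unfold pval
  rw [aeval_collect _ (by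
    intro p hp i hi
    simp only [List.mem_cons, List.not_mem_nil, or_false] at hp
    subst hp
    simp only [List.mem_cons, List.not_mem_nil, or_false] at hi
    omega)]
  simp [rawEval, sgn]
  ring

theorem pval_g {n : ℕ} {G : List QC} (hG : ∀ g ∈ G, GOk n g) (x : Fin (n + 1) → ℝ) :
    pval x (collect (n + 1) (qraw n G)) = (G.map fun g => rawEval (xt x) (graw g) ^ 2).sum +
      xt x n ^ 2 * ∑ i ∈ Finset.range n, xt x i ^ 2 := by
  unfold pval
  rw [aeval_collect _ (fun p hp => (qraw_mem hG p hp).1), rawEval_qraw]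

theorem sum_sq_zero {G : List QC} {φ : QC → ℝ} (h : (G.map fun g => φ g ^ 2).sum ≤ 0) :
    ∀ g ∈ G, φ g = 0 := by
  induction G with
  | nil => simp
  | cons a G ih =>
    rw [List.map_cons, List.sum_cons] at h
    have h0 : 0 ≤ (G.map fun g => φ g ^ 2).sum :=
      List.sum_nonneg (by
        intro y hy
        rw [List.mem_map] at hy
        obtain ⟨g, _, rfl⟩ := hy
        exact sq_nonneg _)
    have h1 := sq_nonneg (φ a)
    intro g hg
    rcases List.mem_cons.1 hg with rfl | hg
    · exact pow_eq_zero_iff (two_ne_zero) |>.1 (le_antisymm (by linarith) h1)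
    · exact ih (by linarith) g hg

theorem sum_sq_nonneg (G : List QC) (φ : QC → ℝ) : 0 ≤ (G.map fun g => φ g ^ 2).sum :=
  List.sum_nonneg (by
    intro y hy
    rw [List.mem_map] at hy
    obtain ⟨g, _, rfl⟩ := hy
    exact sq_nonneg _)

/-- A quadratic form which vanishes on a line vanishes at the direction of the line. -/
theorem gev_line {n : ℕ} {g : QC} (hg : GOk n g) (a b : ℕ → ℝ)
    (h : ∀ t : ℝ, rawEval (fun i => t * a i + b i) (graw g) = 0) : rawEval a (graw g) = 0 := by
  have e : ∀ t : ℝ, gev (fun i => t * a i + b i) (fun i => t * a i + b i) g =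
      t ^ 2 * gev a a g + t * (2 * gev a b g) + gev b b g := by
    intro t
    unfold gev tev bev
    ring
  have h2 : ∀ t : ℝ, t ^ 2 * gev a a g + t * (2 * gev a b g) + gev b b g = 0 := by
    intro t
    rw [← e, gev_eq _ g hg, h t, mul_zero]
  have h0 := h2 0
  have h1 := h2 1
  have h3 := h2 (-1)
  have h4 : gev a a g = 0 := by linarith
  rw [gev_eq _ g hg] at h4
  linarith

theorem linear_of_homSat {n : ℕ} {G : List QC} (hn : 1 ≤ n) (hG : ∀ g ∈ G, GOk n g)
    (h : HomSat n G) : LinearProjection (instQ n G) := by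
  obtain ⟨z, hz, hgz⟩ := h
  refine ⟨(instQ_quartic hn hG).1, ?_⟩
  let A : Matrix (Fin (n + 1)) (Fin (n + 1)) ℝ := fun i j =>
    if (i : ℕ) < n then (if (j : ℕ) = 0 then z i else 0) else (if (j : ℕ) = 1 then 1 else 0)
  refine ⟨A, ?_⟩
  change ∀ x : Fin (n + 1) → ℝ, pval x (collect (n + 1) [(false, [0, 0, 1, 1])]) =
    pval (A.mulVec x) (collect (n + 1) (qraw n G))
  intro x
  rw [pval_f hn, pval_g hG]
  have e1 : ∀ i < n, xt (A.mulVec x) i = xt x 0 * z i := by
    intro i hi
    have hi' : i < n + 1 := by omega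
    have h0 : (0 : ℕ) < n + 1 := by omega
    unfold xt
    rw [dif_pos hi', dif_pos h0]
    unfold Matrix.mulVec dotProduct
    rw [Finset.sum_eq_single (⟨0, h0⟩ : Fin (n + 1))]
    · simp only [A, hi, if_true]
      ring
    · intro j _ hj
      have : (j : ℕ) ≠ 0 := fun h => hj (Fin.ext h)
      simp only [A, hi, if_true, this, if_false]
      ring
    · intro h
      exact absurd (Finset.mem_univ _) h
  have e2 : xt (A.mulVec x) n = xt x 1 := by
    have hi' : n < n + 1 := by omega
    have h0 : (1 : ℕ) < n + 1 := by omega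
    unfold xt
    rw [dif_pos hi', dif_pos h0]
    unfold Matrix.mulVec dotProduct
    rw [Finset.sum_eq_single (⟨1, h0⟩ : Fin (n + 1))]
    · simp [A]
    · intro j _ hj
      have : (j : ℕ) ≠ 1 := fun h => hj (Fin.ext h)
      simp only [A, lt_irrefl, if_false, this]
      ring
    · intro h
      exact absurd (Finset.mem_univ _) h
  have e3 : ∑ i ∈ Finset.range n, xt (A.mulVec x) i ^ 2 = xt x 0 ^ 2 := by
    rw [Finset.sum_congr rfl (fun i hi => by
      rw [e1 i (Finset.mem_range.1 hi), mul_pow] : ∀ i ∈ Finset.range n,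
        xt (A.mulVec x) i ^ 2 = xt x 0 ^ 2 * z i ^ 2), ← Finset.mul_sum, hz, mul_one]
  have e4 : ∀ g ∈ G, rawEval (xt (A.mulVec x)) (graw g) = 0 := by
    intro g hg
    have h1 : gev (xt (A.mulVec x)) (xt (A.mulVec x)) g = xt x 0 ^ 2 * gev z z g := by
      obtain ⟨⟨_, a1, a2⟩, ⟨_, b1, b2⟩, ⟨_, c1, c2⟩⟩ := hG g hg
      unfold gev tev bev
      rw [e1 _ a1, e1 _ a2, e1 _ b1, e1 _ b2, e1 _ c1, e1 _ c2]
      ring
    rw [gev_eq _ g (hG g hg), hgz g hg] at h1
    linarith
  have e5 : (G.map fun g => rawEval (xt (A.mulVec x)) (graw g) ^ 2).sum = 0 := by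
    apply List.sum_eq_zero
    intro y hy
    rw [List.mem_map] at hy
    obtain ⟨g, hg, rfl⟩ := hy
    rw [e4 g hg]
    ring
  rw [e5, e2, e3]
  ring

theorem affine_of_linear {a : ℕ × PolyData × PolyData} (h : LinearProjection a) :
    AffineProjection a := by
  obtain ⟨h1, A, hA⟩ := h
  exact ⟨h1, A, 0, fun x => by rw [add_zero]; exact hA x⟩

theorem homSat_of_affine_aux {n : ℕ} {G : List QC} (hn : 1 ≤ n) (hG : ∀ g ∈ G, GOk n g)
    (A : Matrix (Fin (n + 1)) (Fin (n + 1)) ℝ) (b : Fin (n + 1) → ℝ)
    (hA : ∀ x : Fin (n + 1) → ℝ, pval x (collect (n + 1) [(false, [0, 0, 1, 1])]) =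
      pval (A.mulVec x + b) (collect (n + 1) (qraw n G))) : HomSat n G := by
  have l0 : (0 : ℕ) < n + 1 := by omega
  have l1 : (1 : ℕ) < n + 1 := by omega
  let i0 : Fin (n + 1) := ⟨0, l0⟩
  let i1 : Fin (n + 1) := ⟨1, l1⟩
  have h01 : i0 ≠ i1 := by
    intro h
    have := congrArg Fin.val h
    simp [i0, i1] at this
  -- the columns
  let a : ℕ → ℝ := fun i => xt (fun k => A k i0) i
  let c : ℕ → ℝ := fun i => xt (fun k => A k i1) i
  let d : ℕ → ℝ := fun i => xt b i
  let v : ℝ → ℝ → Fin (n + 1) → ℝ := fun s t => fun i => if i = i0 then s else if i = i1 then t else 0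
  have hv : ∀ s t : ℝ, ∀ i, xt (A.mulVec (v s t) + b) i = s * a i + t * c i + d i := by
    intro s t i
    simp only [a, c, d, xt]
    by_cases hi : i < n + 1
    · simp only [dif_pos hi, Pi.add_apply]
      congr 1
      unfold Matrix.mulVec dotProduct
      have h1 : ∀ j : Fin (n + 1), A ⟨i, hi⟩ j * v s t j =
          (if j = i0 then A ⟨i, hi⟩ i0 * s else 0) + (if j = i1 then A ⟨i, hi⟩ i1 * t else 0) := by
        intro j
        simp only [v]
        by_cases hj0 : j = i0
        · subst hj0
          rw [if_pos rfl, if_pos rfl, if_neg h01, add_zero]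
        · by_cases hj1 : j = i1
          · subst hj1
            rw [if_neg hj0, if_pos rfl, if_neg hj0, if_pos rfl, zero_add]
          · rw [if_neg hj0, if_neg hj1, if_neg hj0, if_neg hj1]
            ring
      rw [Finset.sum_congr rfl (fun j _ => h1 j), Finset.sum_add_distrib,
        Finset.sum_ite_eq' Finset.univ i0, Finset.sum_ite_eq' Finset.univ i1]
      simp
      ring
    · simp only [dif_neg hi]
      ring
  have key : ∀ s t : ℝ, s ^ 2 * t ^ 2 =
      (G.map fun g => rawEval (fun i => s * a i + t * c i + d i) (graw g) ^ 2).sum +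
      (s * a n + t * c n + d n) ^ 2 * ∑ i ∈ Finset.range n, (s * a i + t * c i + d i) ^ 2 := by
    intro s t
    have h1 := hA (v s t)
    rw [pval_f hn, pval_g hG] at h1
    have e : xt (A.mulVec (v s t) + b) = fun i => s * a i + t * c i + d i := funext (hv s t)
    rw [e] at h1
    have e0 : xt (v s t) 0 = s := by simp [xt, v, i0]
    have e1 : xt (v s t) 1 = t := by
      have : (1 : ℕ) < n + 1 := l1
      unfold xt
      rw [dif_pos this]
      simp only [v]
      rw [if_neg (fun h => h01 h.symm), if_pos rfl]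
    rw [e0, e1] at h1
    exact h1
  have nn : ∀ s t : ℝ, 0 ≤ (s * a n + t * c n + d n) ^ 2 *
      ∑ i ∈ Finset.range n, (s * a i + t * c i + d i) ^ 2 := fun s t =>
    mul_nonneg (sq_nonneg _) (Finset.sum_nonneg fun i _ => sq_nonneg _)
  have za : ∀ g ∈ G, rawEval a (graw g) = 0 := by
    intro g hg
    apply gev_line (hG g hg) a d
    intro t
    have h1 := key t 0
    have h2 := nn t 0
    have h3 : (G.map fun g => rawEval (fun i => t * a i + 0 * c i + d i) (graw g) ^ 2).sum ≤ 0 := by
      nlinarith
    have h4 := sum_sq_zero h3 g hg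
    have e : (fun i => t * a i + 0 * c i + d i) = fun i => t * a i + d i := by
      funext i; ring
    rwa [e] at h4
  have zc : ∀ g ∈ G, rawEval c (graw g) = 0 := by
    intro g hg
    apply gev_line (hG g hg) c d
    intro t
    have h1 := key 0 t
    have h2 := nn 0 t
    have h3 : (G.map fun g => rawEval (fun i => 0 * a i + t * c i + d i) (graw g) ^ 2).sum ≤ 0 := by
      nlinarith
    have h4 := sum_sq_zero h3 g hg
    have e : (fun i => 0 * a i + t * c i + d i) = fun i => t * c i + d i := by
      funext i; ring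
    rwa [e] at h4
  have fin : ∀ u : ℕ → ℝ, (∀ g ∈ G, rawEval u (graw g) = 0) →
      (∑ i ∈ Finset.range n, u i ^ 2) ≠ 0 → HomSat n G := by
    intro u hu h0
    have hpos : 0 < ∑ i ∈ Finset.range n, u i ^ 2 :=
      lt_of_le_of_ne (Finset.sum_nonneg fun i _ => sq_nonneg _) (Ne.symm h0)
    exact Pool.Agent.H78R3.TSV.homSat_of u hpos fun g hg => by
      rw [gev_eq _ g (hG g hg), hu g hg, mul_zero]
  by_cases ha : (∑ i ∈ Finset.range n, a i ^ 2) = 0
  · by_cases hc : (∑ i ∈ Finset.range n, c i ^ 2) = 0
    · exfalso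
      have ha0 : ∀ i ∈ Finset.range n, a i = 0 := by
        intro i hi
        have := (Finset.sum_eq_zero_iff_of_nonneg (fun i _ => sq_nonneg (a i))).1 ha i hi
        exact pow_eq_zero_iff (two_ne_zero) |>.1 this
      have hc0 : ∀ i ∈ Finset.range n, c i = 0 := by
        intro i hi
        have := (Finset.sum_eq_zero_iff_of_nonneg (fun i _ => sq_nonneg (c i))).1 hc i hi
        exact pow_eq_zero_iff (two_ne_zero) |>.1 this
      set B := ∑ i ∈ Finset.range n, d i ^ 2 with hB
      have hBs : ∀ s t : ℝ, ∑ i ∈ Finset.range n, (s * a i + t * c i + d i) ^ 2 = B := by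
        intro s t
        rw [hB]
        refine Finset.sum_congr rfl fun i hi => ?_
        rw [ha0 i hi, hc0 i hi]
        ring
      set K := (G.map fun g => rawEval d (graw g) ^ 2).sum with hK
      have hKs : ∀ s t : ℝ, (G.map fun g =>
          rawEval (fun i => s * a i + t * c i + d i) (graw g) ^ 2).sum = K := by
        intro s t
        rw [hK]
        congr 1
        apply List.map_congr_left
        intro g hg
        have h1 : ∀ p ∈ graw g, ((p.2.map (fun i => s * a i + t * c i + d i)).prod : ℝ) =
            (p.2.map d).prod := by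
          intro p hp
          congr 1
          apply List.map_congr_left
          intro i hi
          have := (graw_mem (hG g hg) p hp).1 i hi
          rw [ha0 i (Finset.mem_range.2 this), hc0 i (Finset.mem_range.2 this)]
          ring
        congr 1
        unfold rawEval
        congr 1
        apply List.map_congr_left
        intro p hp
        rw [h1 p hp]
      have k := key
      simp only [hBs, hKs] at k
      have k00 := k 0 0
      have k10 := k 1 0
      have k01 := k 0 1
      have k11 := k 1 1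
      have k20 := k (-1) 0
      have k02 := k 0 (-1)
      have hK0 : 0 ≤ K := sum_sq_nonneg G _
      have hB0 : 0 ≤ B := Finset.sum_nonneg fun i _ => sq_nonneg _
      have e1 : B * d n ^ 2 = 0 := by nlinarith [mul_nonneg hB0 (sq_nonneg (d n))]
      have e2 : B * a n ^ 2 = 0 := by nlinarith [mul_nonneg hB0 (sq_nonneg (a n))]
      have e3 : B * c n ^ 2 = 0 := by nlinarith [mul_nonneg hB0 (sq_nonneg (c n))]
      have hKz : K = 0 := by nlinarith [mul_nonneg hB0 (sq_nonneg (d n))]
      rcases mul_eq_zero.1 e2 with hb | hb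
      · rw [hb, hKz] at k11
        norm_num at k11
      · rcases mul_eq_zero.1 e3 with hb' | hb'
        · rw [hb', hKz] at k11
          norm_num at k11
        · rcases mul_eq_zero.1 e1 with hb'' | hb''
          · rw [hb'', hKz] at k11
            norm_num at k11
          · have z1 : a n = 0 := pow_eq_zero_iff (two_ne_zero) |>.1 hb
            have z2 : c n = 0 := pow_eq_zero_iff (two_ne_zero) |>.1 hb'
            have z3 : d n = 0 := pow_eq_zero_iff (two_ne_zero) |>.1 hb''
            rw [z1, z2, z3, hKz] at k11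
            norm_num at k11
    · exact fin c zc hc
  · exact fin a za ha

theorem homSat_of_affine {n : ℕ} {G : List QC} (hn : 1 ≤ n) (hG : ∀ g ∈ G, GOk n g)
    (h : AffineProjection (instQ n G)) : HomSat n G := by
  obtain ⟨_, A, b, hA⟩ := h
  exact homSat_of_affine_aux hn hG A b hA

end Pool.Agent.Results.MP_ca1301_lc.AffineProjectionHard

/-! ### Polynomial time -/

namespace Pool.Agent.NPC.X246AP

open Pool.Agent.NPC Pool.Agent.NPC.ER Pool.Agent.NPC.H612
open Pool.Agent.Results.MP_ca1301_lc.AffineProjectionHard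
open Pool.Agent.H78R3.TSV (QT QC gev tev bev hsys hn HomSat GOk hsys_ok)

section

variable {α : Type} [TEnc α]

theorem poly_traw {t : α → QT} (ht : Poly t) : Poly (fun a => traw (t a)) := by
  have h1 : Poly (fun a => (t a).1.natAbs) := Poly.natAbs (Poly.fst ht)
  have h2 : Poly (fun a => decide ((t a).1 < 0)) := poly_isNeg (Poly.fst ht)
  refine Poly.map (F := fun a _ => (decide ((t a).1 < 0), [(t a).2.1, (t a).2.2])) (Poly.filter
    (p := fun a r => decide (r < (t a).1.natAbs)) (Poly.const (List.range 8)) ?_) ?_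
  · exact Poly.decide_lt (Poly.snd Poly.id) (h1.comp (Poly.fst Poly.id))
  · exact Poly.pair (h2.comp (Poly.fst Poly.id))
      (Poly.cons ((Poly.fst (Poly.snd ht)).comp (Poly.fst Poly.id))
        (Poly.cons ((Poly.snd (Poly.snd ht)).comp (Poly.fst Poly.id)) (Poly.const [])))

theorem poly_graw {g : α → QC} (hg : Poly g) : Poly (fun a => graw (g a)) :=
  Poly.append (poly_traw (Poly.fst hg)) (Poly.append (poly_traw (Poly.fst (Poly.snd hg)))
    (poly_traw (Poly.snd (Poly.snd hg))))

theorem poly_sqraw {R : α → List (Bool × List ℕ)} (hR : Poly R) :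
    Poly (fun a => sqraw (R a)) := by
  refine Poly.flatMap (F := fun a (p : Bool × List ℕ) =>
    (R a).map fun q => ((p.1 ^^ q.1), p.2 ++ q.2)) hR ?_
  refine Poly.map (F := fun (s : α × (Bool × List ℕ)) (q : Bool × List ℕ) =>
    ((s.2.1 ^^ q.1), s.2.2 ++ q.2)) (hR.comp (Poly.fst Poly.id)) ?_
  exact Poly.pair (Poly.xor (Poly.fst (Poly.snd (Poly.fst Poly.id))) (Poly.fst (Poly.snd Poly.id)))
    (Poly.append (Poly.snd (Poly.snd (Poly.fst Poly.id))) (Poly.snd (Poly.snd Poly.id)))

theorem poly_qraw {n : α → ℕ} {G : α → List QC} (hn : UPoly n) (hG : Poly G) :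
    Poly (fun a => qraw (n a) (G a)) := by
  refine Poly.append ?_ ?_
  · exact Poly.flatMap (F := fun _ g => sqraw (graw g)) hG
      (poly_sqraw (poly_graw (Poly.snd Poly.id)))
  · have hn' : Poly (fun p : α × ℕ => n p.1) := hn.toPoly.comp (Poly.fst Poly.id)
    exact Poly.map (F := fun a i => (false, [n a, n a, i, i])) hn.range
      (Poly.pair (Poly.const false) (Poly.cons hn' (Poly.cons hn' (Poly.cons (Poly.snd Poly.id)
        (Poly.cons (Poly.snd Poly.id) (Poly.const []))))))

theorem poly_instQ {n : α → ℕ} {G : α → List QC} (hn : UPoly n) (hG : Poly G) :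
    Poly (fun a => instQ (n a) (G a)) :=
  Poly.pair (Poly.succ hn.toPoly) (Poly.pair
    (poly_collect (UPoly.add hn (UPoly.const 1)) (Poly.const _))
    (poly_collect (UPoly.add hn (UPoly.const 1)) (poly_qraw hn hG)))

end

/-- The instance of a system of constraints `x = 1`, `x + y = z`, `x * y = z`. -/
def inst (S : List ER.Con) : ℕ × PolyData × PolyData := instQ (hn (bsys S)) (hsys (bsys S))

theorem poly_inst : Poly inst :=
  poly_instQ (Pool.Agent.NPC.H78TSV.upoly_hn (poly_bsys Poly.id))
    (Pool.Agent.NPC.H78TSV.poly_hsys (poly_bsys Poly.id))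

end Pool.Agent.NPC.X246AP

namespace Pool.Agent.Results.MP_ca1301_lc.AffineProjectionHard

open Pool.Agent.NPC Pool.Agent.NPC.ER Pool.Agent.NPC.H612
open Pool.Agent.H78R3.TSV (QT QC gev tev bev hsys hn HomSat GOk hsys_ok)
open Pool.Agent.NPC.X246AP (inst poly_inst)

theorem one_le_hn (T : List ER.Con) : 1 ≤ hn T := by
  unfold hn
  omega

theorem inst_quartic (S : List ER.Con) : IsQuartic (inst S) :=
  instQ_quartic (one_le_hn _) (hsys_ok _)

/-- **Correctness of the reduction.** -/
theorem sat_linear (S : List ER.Con) (h : Sat S) : LinearProjection (inst S) :=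
  linear_of_homSat (one_le_hn _) (hsys_ok _) ((Pool.Agent.H78R3.TSV.homSat_iff S).2 h)

theorem sat_of_affine (S : List ER.Con) (h : AffineProjection (inst S)) : Sat S :=
  (Pool.Agent.H78R3.TSV.homSat_iff S).1 (homSat_of_affine (one_le_hn _) (hsys_ok _) h)

/-- Affine polynomial projection is `∃ℝ`-hard. Moreover every problem of `∃ℝ` reduces to it by a
polynomial-time reduction whose values are pairs of homogeneous quartics for which the affine and
the linear problem have the same answer. -/
theorem result : ERHard (lang AffineProjection) ∧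
    ∀ L : Set (List Bool), InER L → ∃ F : List Bool → ℕ × PolyData × PolyData,
      PolyTime (fun w => bits (F w)) ∧ ∀ w, IsQuartic (F w) ∧
        (w ∈ L ↔ AffineProjection (F w)) ∧ (w ∈ L ↔ LinearProjection (F w)) := by
  refine ⟨ERHard.of_sys poly_inst fun S =>
    ⟨fun h => affine_of_linear (sat_linear S h), sat_of_affine S⟩, ?_⟩
  rintro L ⟨g, hg, hL⟩
  have h1 : PC (id : List Bool → List Bool) (bits : Fm → List Bool) g :=
    Pool.Agent.H642R2.TMSim.polyTime_toPC hg
  have h2 : Pool.Agent.NPC.Poly (fun φ : Fm => inst (sysOf φ)) :=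
    Pool.Agent.NPC.Poly.comp poly_inst (poly_sysOf Pool.Agent.NPC.Poly.id)
  have h3 : PC (id : List Bool → List Bool) (bits : ℕ × PolyData × PolyData → List Bool)
      (fun x => inst (sysOf (g x))) :=
    PC.comp (g := fun φ : Fm => inst (sysOf φ)) (eb := (bits : Fm → List Bool)) h2 h1
  have h4 : PC (id : List Bool → List Bool) (id : List Bool → List Bool)
      (fun x => bits (inst (sysOf (g x)))) := h3
  refine ⟨fun x => inst (sysOf (g x)), PC.toPolyTime h4, fun x => ⟨inst_quartic _, ?_, ?_⟩⟩
  · rw [hL, ← sat_sysOf]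
    exact ⟨fun h => affine_of_linear (sat_linear _ h), sat_of_affine _⟩
  · rw [hL, ← sat_sysOf]
    exact ⟨sat_linear _, fun h => sat_of_affine _ (affine_of_linear h)⟩

end Pool.Agent.Results.MP_ca1301_lc.AffineProjectionHard
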